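import Pool.Agent.helper71.DSW.SpecB

set_option autoImplicit false

namespace Pool.Agent.DSW

open Equiv Finset Function Pool.Agent.helper48.PP
open scoped ENNReal Classical

theorem POS_zero {L : ℕ} (g : Fin (L + 1) → ℕ) : pos g 0 = g 0 := by
  unfold pos
  have h : Finset.univ.filter (fun j : Fin (L + 1) => (j : ℕ) ≤ 0) = {0} := by
    ext j
    simp only [mem_filter, mem_univ, true_and, mem_singleton]
    constructor
    · intro h
      exact Fin.ext (Nat.le_zero.1 h)
    · rintro rfl
      exact le_rfl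
  rw [h, sum_singleton, add_zero]

theorem POS_succ {L : ℕ} (g : Fin (L + 1) → ℕ) (i : Fin L) :
    pos g ((i : ℕ) + 1) = pos g (i : ℕ) + g i.succ + 1 := by
  unfold pos
  have h : Finset.univ.filter (fun j : Fin (L + 1) => (j : ℕ) ≤ (i : ℕ) + 1) =
      insert i.succ (Finset.univ.filter (fun j : Fin (L + 1) => (j : ℕ) ≤ (i : ℕ))) := by
    ext j
    simp only [mem_filter, mem_univ, true_and, mem_insert]
    constructor
    · intro h
      rcases Nat.lt_or_ge (i : ℕ) (j : ℕ) with h1 | h1
      · exact Or.inl (Fin.ext (by rw [Fin.val_succ]; omega))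
      · exact Or.inr h1
    · rintro (rfl | h)
      · rw [Fin.val_succ]
      · omega
  have h2 : i.succ ∉ Finset.univ.filter (fun j : Fin (L + 1) => (j : ℕ) ≤ (i : ℕ)) := by
    simp only [mem_filter, mem_univ, true_and, Fin.val_succ]
    omega
  rw [h, sum_insert h2]
  ring

theorem POS_last {L : ℕ} (g : Fin (L + 1) → ℕ) : pos g L = (∑ j, g j) + L := by
  unfold pos
  have h : Finset.univ.filter (fun j : Fin (L + 1) => (j : ℕ) ≤ L) = Finset.univ := by
    ext j
    simp only [mem_filter, mem_univ, true_and, iff_true]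
    exact Nat.le_of_lt_succ j.2
  rw [h]

theorem POS_lt {L : ℕ} (g : Fin (L + 1) → ℕ) {i j : ℕ} (h : i < j) : pos g i < pos g j := by
  unfold pos
  have h1 : (∑ l ∈ Finset.univ.filter (fun l : Fin (L + 1) => (l : ℕ) ≤ i), g l) ≤
      ∑ l ∈ Finset.univ.filter (fun l : Fin (L + 1) => (l : ℕ) ≤ j), g l := by
    apply sum_le_sum_of_subset
    intro l hl
    simp only [mem_filter, mem_univ, true_and] at hl ⊢
    omega
  omega

theorem POS_inj {L : ℕ} (g g' : Fin (L + 1) → ℕ) (h : ∀ i, i ≤ L → pos g i = pos g' i) :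
    g = g' := by
  funext j
  refine Fin.cases ?_ (fun i => ?_) j
  · rw [← POS_zero g, ← POS_zero g']
    exact h 0 (Nat.zero_le _)
  · have h1 := h i (le_of_lt i.2)
    have h2 := h (i + 1) i.2
    rw [POS_succ, POS_succ] at h2
    omega

theorem POS : POS_stmt := by
  refine ⟨fun L g => ⟨POS_zero g, POS_succ g, POS_last g⟩, ?_, ?_⟩
  · intro L a c
    refine ⟨fun b i j h => POS_lt _ h, fun b i j h => POS_lt _ h, fun b i => POS_lt _ i.2,
      fun i b => POS_lt _ b.2⟩
  · intro L a c a' c' h ha hc
    constructor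
    · funext b
      apply POS_inj
      intro i hi
      rcases hi.eq_or_lt with rfl | hi
      · exact congrFun ha b
      · exact congrFun (congrFun (congrArg Prod.fst h) b) ⟨i, hi⟩
    · funext b
      apply POS_inj
      intro i hi
      rcases hi.eq_or_lt with rfl | hi
      · exact congrFun hc b
      · exact congrFun (congrFun (congrArg Prod.snd h) b) ⟨i, hi⟩

end Pool.Agent.DSW
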